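import Pool.Agent.Y6.F.Stm

set_option autoImplicit false

/-! # The scaling of solutions (helper of the project EF) -/

open Set Filter Topology
open scoped ComplexConjugate

namespace Pool.Agent.Y331.EF.SCALE

open Pool.Agent.Y6.M (Z3 C3 Coef dt cr cj kc nsq len adv leray Kop IsField IsSol energy enstr)

/-- The field `l V`. -/
noncomputable def sc (l : ℝ) (V : Coef) : Coef := fun k j => (l : ℂ) * V k j

theorem sc_apply (l : ℝ) (V : Coef) (k : Z3) (j : Fin 3) : sc l V k j = (l : ℂ) * V k j := rfl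

theorem dt_smul_right (l : ℂ) (a b : C3) : dt a (fun j => l * b j) = l * dt a b := by
  rw [dt, dt, Finset.mul_sum]
  exact Finset.sum_congr rfl fun j _ => by ring

theorem dt_smul_left (l : ℂ) (a b : C3) : dt (fun j => l * a j) b = l * dt a b := by
  rw [dt, dt, Finset.mul_sum]
  exact Finset.sum_congr rfl fun j _ => by ring

theorem cr_smul_right (l : ℂ) (a b : C3) (j : Fin 3) :
    cr a (fun j => l * b j) j = l * cr a b j := by
  fin_cases j <;> simp [cr] <;> ring

theorem field_sc (l : ℝ) {V : Coef} (h : IsField V) : IsField (sc l V) where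
  zero := by
    funext j
    rw [sc_apply, h.zero]
    simp
  real := by
    intro k j
    rw [sc_apply, sc_apply, h.real, map_mul, Complex.conj_ofReal]
  div := by
    intro k
    have : dt (kc k) (sc l V k) = (l : ℂ) * dt (kc k) (V k) := dt_smul_right _ _ _
    rw [this, h.div, mul_zero]
  smooth := by
    intro q
    obtain ⟨M, hM⟩ := h.smooth q
    refine ⟨|l| * M, ?_⟩
    intro k j
    rw [sc_apply, norm_mul, Complex.norm_real, Real.norm_eq_abs]
    calc len k ^ q * (|l| * ‖V k j‖) = |l| * (len k ^ q * ‖V k j‖) := by ring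
      _ ≤ |l| * M := mul_le_mul_of_nonneg_left (hM k j) (abs_nonneg _)

theorem adv_sc (l : ℝ) (V : Coef) (k : Z3) (j : Fin 3) :
    adv (sc l V) k j = (l : ℂ) ^ 2 * adv V k j := by
  rw [adv, adv, ← tsum_mul_left]
  refine tsum_congr fun p => ?_
  have : dt (sc l V p) (kc (k - p)) = (l : ℂ) * dt (V p) (kc (k - p)) := dt_smul_left _ _ _
  rw [this, sc_apply]
  ring

theorem leray_smul (l : ℂ) (k : Z3) (w : C3) (j : Fin 3) :
    leray k (fun j => l * w j) j = l * leray k w j := by
  rw [leray, leray, dt_smul_right]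
  ring

theorem kop_sc (l : ℝ) (m n : Z3 → ℝ) (V : Coef) (k : Z3) (j : Fin 3) :
    Kop (fun k => l * m k) (fun k => l * n k) (sc l V) k j = (l : ℂ) ^ 2 * Kop m n V k j := by
  rw [Kop, Kop]
  have : cr (kc k) (sc l V k) j = (l : ℂ) * cr (kc k) (V k) j := cr_smul_right _ _ _ _
  rw [this, sc_apply]
  push_cast
  ring

theorem rhs_sc (l : ℝ) (m n : Z3 → ℝ) (V : Coef) (k : Z3) (j : Fin 3) :
    Kop (fun k => l * m k) (fun k => l * n k) (sc l V) k j - leray k (adv (sc l V) k) j =
      (l : ℂ) ^ 2 * (Kop m n V k j - leray k (adv V k) j) := by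
  have : adv (sc l V) k = fun j => (l : ℂ) ^ 2 * adv V k j := funext fun j => adv_sc l V k j
  rw [kop_sc, this, leray_smul]
  ring

theorem sol_sc (l : ℝ) (hl : 0 < l) {m n : Z3 → ℝ} {T : ℝ} {V : ℝ → Coef} (h : IsSol m n T V) :
    IsSol (fun k => l * m k) (fun k => l * n k) (T / l) (fun t => sc l (V (l * t))) where
  field := by
    intro t ht
    refine field_sc l (h.field _ ⟨mul_nonneg hl.le ht.1, ?_⟩)
    have := (lt_div_iff₀ hl).mp ht.2
    linarith
  reg := by
    intro q T' hT'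
    have h1 : l * T' < T := by
      have := (lt_div_iff₀ hl).mp hT'
      linarith
    obtain ⟨M, hM⟩ := h.reg q (l * T') h1
    refine ⟨l * M, ?_⟩
    intro t ht k j
    have h2 := hM (l * t) ⟨mul_nonneg hl.le ht.1, mul_le_mul_of_nonneg_left ht.2 hl.le⟩ k j
    rw [sc_apply, norm_mul, Complex.norm_real, Real.norm_eq_abs, abs_of_pos hl]
    calc len k ^ q * (l * ‖V (l * t) k j‖) = l * (len k ^ q * ‖V (l * t) k j‖) := by ring
      _ ≤ l * M := mul_le_mul_of_nonneg_left h2 hl.le
  eqn := by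
    intro k hk j t ht
    have ht' : l * t ∈ Ico 0 T := by
      refine ⟨mul_nonneg hl.le ht.1, ?_⟩
      have := (lt_div_iff₀ hl).mp ht.2
      linarith
    have h1 := h.eqn k hk j (l * t) ht'
    have h2 : HasDerivWithinAt (fun s : ℝ => l * s) l (Ico 0 (T / l)) t := by
      simpa using ((hasDerivAt_id t).const_mul l).hasDerivWithinAt
    have h3 : MapsTo (fun s : ℝ => l * s) (Ico 0 (T / l)) (Ico 0 T) := by
      intro s hs
      refine ⟨mul_nonneg hl.le hs.1, ?_⟩
      have := (lt_div_iff₀ hl).mp hs.2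
      change l * s < T
      linarith
    have h4 := HasDerivWithinAt.scomp t h1 h2 h3
    have h5 := h4.const_mul (l : ℂ)
    rw [rhs_sc]
    refine HasDerivWithinAt.congr_deriv h5 ?_
    rw [Complex.real_smul]
    ring

theorem energy_sc (l : ℝ) (V : Coef) : energy (sc l V) = l ^ 2 * energy V := by
  rw [energy, energy, ← tsum_mul_left]
  refine tsum_congr fun k => ?_
  rw [Finset.mul_sum]
  refine Finset.sum_congr rfl fun j _ => ?_
  rw [sc_apply, norm_mul, Complex.norm_real, Real.norm_eq_abs, mul_pow, sq_abs]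

theorem enstr_sc (l : ℝ) (V : Coef) : enstr (sc l V) = l ^ 2 * enstr V := by
  rw [enstr, enstr, ← tsum_mul_left]
  refine tsum_congr fun k => ?_
  have : ∑ j, ‖sc l V k j‖ ^ 2 = l ^ 2 * ∑ j, ‖V k j‖ ^ 2 := by
    rw [Finset.mul_sum]
    refine Finset.sum_congr rfl fun j _ => ?_
    rw [sc_apply, norm_mul, Complex.norm_real, Real.norm_eq_abs, mul_pow, sq_abs]
  rw [this]
  ring

theorem sc_sc (l : ℝ) (hl : 0 < l) (V : Coef) : sc l⁻¹ (sc l V) = V := by
  funext k j
  have : (l : ℂ) ≠ 0 := by exact_mod_cast hl.ne'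
  rw [sc_apply, sc_apply]
  push_cast
  rw [← mul_assoc, inv_mul_cancel₀ this, one_mul]

theorem sc_sc' (l : ℝ) (hl : 0 < l) (V : Coef) : sc l (sc l⁻¹ V) = V := by
  funext k j
  have : (l : ℂ) ≠ 0 := by exact_mod_cast hl.ne'
  rw [sc_apply, sc_apply]
  push_cast
  rw [← mul_assoc, mul_inv_cancel₀ this, one_mul]

theorem t_SCALE : Pool.Agent.Y6.F.S_SCALE := by
  rintro ⟨m, n, C, T, V, hm, hn, hC, hT, -, hsol, huniq, hen, hens⟩ q ε hε
  obtain ⟨M0, hM0⟩ := (hsol.field 0 ⟨le_refl 0, hT⟩).smooth q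
  set l : ℝ := ε / (|C| + |M0| + 1) with hl
  have hl0 : 0 < l := by positivity
  have hlC : l * C ≤ ε := by
    have h1 : l * (|C| + |M0| + 1) = ε := by
      rw [hl]
      field_simp
    have h2 : C ≤ |C| + |M0| + 1 := by
      have := le_abs_self C
      have := abs_nonneg M0
      linarith
    have := mul_le_mul_of_nonneg_left h2 hl0.le
    linarith
  have hlM : l * M0 ≤ ε := by
    have h1 : l * (|C| + |M0| + 1) = ε := by
      rw [hl]
      field_simp
    have h2 : M0 ≤ |C| + |M0| + 1 := by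
      have := le_abs_self M0
      have := abs_nonneg C
      linarith
    have := mul_le_mul_of_nonneg_left h2 hl0.le
    linarith
  have hlen : ∀ k : Z3, 0 ≤ len k := fun k => Real.sqrt_nonneg _
  refine ⟨fun k => l * m k, fun k => l * n k, T / l, fun t => sc l (V (l * t)), ?_, ?_, ?_, ?_,
    by positivity, sol_sc l hl0 hsol, ?_, ?_, ?_⟩
  · intro k
    change l * m (-k) = -(l * m k)
    rw [hm]
    ring
  · intro k
    change l * n (-k) = -(l * n k)
    rw [hn]
    ring
  · intro k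
    rw [abs_mul, abs_mul, abs_of_pos hl0, ← mul_add]
    calc l * (|m k| + |n k|) ≤ l * (C * len k ^ 16) := mul_le_mul_of_nonneg_left (hC k) hl0.le
      _ = (l * C) * len k ^ 16 := by ring
      _ ≤ ε * len k ^ 16 := mul_le_mul_of_nonneg_right hlC (pow_nonneg (hlen k) _)
  · intro k j
    simp only [mul_zero]
    rw [sc_apply, norm_mul, Complex.norm_real, Real.norm_eq_abs, abs_of_pos hl0]
    calc len k ^ q * (l * ‖V 0 k j‖) = l * (len k ^ q * ‖V 0 k j‖) := by ring
      _ ≤ l * M0 := mul_le_mul_of_nonneg_left (hM0 k j) hl0.le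
      _ ≤ ε := hlM
  · intro T' W hT' hW hW0
    have hinv : 0 < l⁻¹ := inv_pos.mpr hl0
    have h1 := sol_sc l⁻¹ hinv hW
    have em : (fun k => l⁻¹ * (l * m k)) = m := by
      funext k
      rw [← mul_assoc, inv_mul_cancel₀ hl0.ne', one_mul]
    have en : (fun k => l⁻¹ * (l * n k)) = n := by
      funext k
      rw [← mul_assoc, inv_mul_cancel₀ hl0.ne', one_mul]
    rw [em, en, div_inv_eq_mul] at h1
    have h2 : (fun t => sc l⁻¹ (W (l⁻¹ * t))) 0 = V 0 := by
      simp only [mul_zero]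
      rw [hW0]
      simp only [mul_zero]
      exact sc_sc l hl0 _
    obtain ⟨h3, h4⟩ := huniq (T' * l) _ (by positivity) h1 h2
    refine ⟨(le_div_iff₀ hl0).mpr h3, ?_⟩
    intro t ht
    have h5 : l * t ∈ Ico 0 (T' * l) := by
      refine ⟨mul_nonneg hl0.le ht.1, ?_⟩
      rw [mul_comm]
      exact mul_lt_mul_of_pos_right ht.2 hl0
    have h6 := h4 (l * t) h5
    rw [← mul_assoc, inv_mul_cancel₀ hl0.ne', one_mul] at h6
    change W t = sc l (V (l * t))
    rw [← h6, sc_sc' l hl0]
  · intro t ht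
    have ht' : l * t ∈ Ico 0 T := by
      refine ⟨mul_nonneg hl0.le ht.1, ?_⟩
      have := (lt_div_iff₀ hl0).mp ht.2
      linarith
    simp only [mul_zero]
    rw [energy_sc, energy_sc, hen _ ht']
  · intro M
    obtain ⟨t, ht, hMt⟩ := hens (M / l ^ 2)
    refine ⟨t / l, ⟨div_nonneg ht.1 hl0.le, div_lt_div_of_pos_right ht.2 hl0⟩, ?_⟩
    have e : l * (t / l) = t := by field_simp
    simp only [e]
    rw [enstr_sc]
    rw [div_lt_iff₀ (by positivity)] at hMt
    linarith

end Pool.Agent.Y331.EF.SCALE
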